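import Pool.Agent.Helper20.QD.St6

/-!
# Project QD, part B, module DLI: the lift of a homeomorphism of the circle
-/

set_option autoImplicit false

open Filter Topology Matrix Set Metric
open scoped ComplexConjugate

namespace Pool.Agent.Helper72.QD

open Pool.Agent.Helper35.PM Pool.Agent.Helper20.QD

theorem hDLI : StDLI := by
  rintro φ ⟨hφ, hinj, hmap, g, hg, hgφ⟩
  have hE : ∀ s : ℝ, Complex.exp (s * Complex.I) ∈ SS := by
    intro s
    rw [mem_sphere_zero_iff_norm, Complex.norm_exp_ofReal_mul_I]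
  have hEc : Continuous fun s : ℝ => Complex.exp (s * Complex.I) := by fun_prop
  have hre : ∀ ζ ∈ SS, (g ζ).re = 0 := by
    intro ζ hζ
    have h1 := congrArg norm (hgφ ζ hζ)
    have h2 : ‖ζ‖ = 1 := mem_sphere_zero_iff_norm.1 hζ
    have h3 : ‖φ ζ‖ = 1 := mem_sphere_zero_iff_norm.1 (hmap hζ)
    rw [norm_mul, norm_zpow, h2, h3, Complex.norm_exp, _root_.one_zpow, one_mul] at h1
    exact Real.exp_eq_one_iff _ |>.1 h1.symm
  have hgi : ∀ ζ ∈ SS, g ζ = ((g ζ).im : ℂ) * Complex.I := by
    intro ζ hζ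
    apply Complex.ext
    · simp [hre ζ hζ]
    · simp
  obtain ⟨Φ, hΦ⟩ : ∃ Φ : ℝ → ℝ, ∀ s : ℝ, Φ s = s + (g (Complex.exp (s * Complex.I))).im :=
    ⟨_, fun _ => rfl⟩
  have hcont : Continuous Φ := by
    have h1 : Continuous fun s : ℝ => g (Complex.exp (s * Complex.I)) :=
      hg.comp_continuous hEc hE
    have h2 : Φ = fun s : ℝ => s + (g (Complex.exp (s * Complex.I))).im := funext hΦ
    rw [h2]
    exact continuous_id.add (Complex.continuous_im.comp h1)
  have hper : ∀ s : ℝ, Φ (s + 2 * Real.pi) = Φ s + 2 * Real.pi := by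
    intro s
    have h1 : Complex.exp (((s + 2 * Real.pi : ℝ) : ℂ) * Complex.I) =
        Complex.exp (s * Complex.I) := by
      have h2 : ((s + 2 * Real.pi : ℝ) : ℂ) * Complex.I = s * Complex.I + 2 * Real.pi * Complex.I := by
        push_cast
        ring
      rw [h2, Complex.exp_add, Complex.exp_two_pi_mul_I, mul_one]
    rw [hΦ, hΦ, h1]
    ring
  have heq : ∀ s : ℝ, φ (Complex.exp (s * Complex.I)) = Complex.exp (Φ s * Complex.I) := by
    intro s
    have h1 := hgφ _ (hE s)
    rw [hgi _ (hE s)] at h1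
    have h2 : Complex.exp (s * Complex.I) ≠ 0 := Complex.exp_ne_zero _
    beta_reduce at h1
    rw [_root_.zpow_neg_one] at h1
    have h3 : φ (Complex.exp (s * Complex.I)) =
        Complex.exp (((g (Complex.exp (s * Complex.I))).im : ℂ) * Complex.I) *
          Complex.exp (s * Complex.I) := by
      rw [← h1, mul_assoc, inv_mul_cancel₀ h2, mul_one]
    rw [h3, ← Complex.exp_add, hΦ]
    congr 1
    push_cast
    ring
  have hΦinj : Function.Injective Φ := by
    intro s t hst
    have h1 : φ (Complex.exp (s * Complex.I)) = φ (Complex.exp (t * Complex.I)) := by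
      rw [heq, heq, hst]
    have h2 := hinj (hE s) (hE t) h1
    rw [hΦ, hΦ, h2] at hst
    exact add_right_cancel hst
  refine ⟨Φ, hcont, ?_, hper, heq⟩
  rcases hcont.strictMono_of_inj hΦinj with h | h
  · exact h
  · exfalso
    have h1 := h (show (0 : ℝ) < 0 + 2 * Real.pi by linarith [Real.pi_pos])
    rw [hper] at h1
    linarith [Real.pi_pos]

end Pool.Agent.Helper72.QD
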