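import Pool.Agent.Helper20.QD.St3

/-!
# Project QD, part B, module LCO: cocompactness on the domain of discontinuity
-/

set_option autoImplicit false

open Filter Topology Matrix Set Metric
open scoped ComplexConjugate ComplexOrder

namespace Pool.Agent.Helper72.QD

open Pool.Agent.Helper35.PM Pool.Agent.Helper20.QD

noncomputable section

/-- the trace of `(adj P) Q` -/
def bc (Q P : Mat) : ℂ := P 1 1 * Q 0 0 - P 0 1 * Q 1 0 - P 1 0 * Q 0 1 + P 0 0 * Q 1 1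

/-- its real part -/
def be (Q P : Mat) : ℝ := (bc Q P).re

/-- real part of the determinant -/
def dt (P : Mat) : ℝ := P.det.re

/-- the square of the exponential of the Busemann function -/
def Bb (Q P : Mat) : ℝ := be Q P ^ 2 / dt P

theorem bc_conj (A : SL) (Q P : Mat) :
    bc ((A : Mat) * Q * (A : Mat)ᴴ) ((A : Mat) * P * (A : Mat)ᴴ) = bc Q P := by
  have h1 : (A : Mat) 0 0 * (A : Mat) 1 1 - (A : Mat) 0 1 * (A : Mat) 1 0 = 1 := by
    have := A.det_coe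
    rwa [Matrix.det_fin_two] at this
  have h2 : conj ((A : Mat) 0 0) * conj ((A : Mat) 1 1) - conj ((A : Mat) 0 1) * conj ((A : Mat) 1 0) = 1 := by
    have := congrArg conj h1
    simpa using this
  simp only [bc, Matrix.mul_apply, Fin.sum_univ_two, Matrix.conjTranspose_apply]
  simp only [RCLike.star_def]
  generalize conj ((A : Mat) 0 0) = a' at *
  generalize conj ((A : Mat) 0 1) = b' at *
  generalize conj ((A : Mat) 1 0) = c' at *
  generalize conj ((A : Mat) 1 1) = d' at *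
  generalize (A : Mat) 0 0 = a at *
  generalize (A : Mat) 0 1 = b at *
  generalize (A : Mat) 1 0 = c at *
  generalize (A : Mat) 1 1 = d at *
  have h3 : (a * d - b * c) * (a' * d' - b' * c') = 1 := by rw [h1, h2, one_mul]
  linear_combination (P 1 1 * Q 0 0 - P 0 1 * Q 1 0 - P 1 0 * Q 0 1 + P 0 0 * Q 1 1) * h3

theorem dt_conj (A : SL) (P : Mat) : dt ((A : Mat) * P * (A : Mat)ᴴ) = dt P := by
  rw [dt, dt, Matrix.det_mul, Matrix.det_mul, A.det_coe, Matrix.det_conjTranspose, A.det_coe]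
  simp

theorem be_smul (c d : ℝ) (Q P : Mat) : be ((c : ℂ) • Q) ((d : ℂ) • P) = c * d * be Q P := by
  have : bc ((c : ℂ) • Q) ((d : ℂ) • P) = ((c * d : ℝ) : ℂ) * bc Q P := by
    simp only [bc, Matrix.smul_apply, smul_eq_mul]
    push_cast
    ring
  rw [be, be, this, Complex.re_ofReal_mul]

theorem dt_smul (d : ℝ) (P : Mat) : dt ((d : ℂ) • P) = d ^ 2 * dt P := by
  have : ((d : ℂ) • P).det = ((d ^ 2 : ℝ) : ℂ) * P.det := by
    rw [Matrix.det_smul, Fintype.card_fin]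
    push_cast
    ring
  rw [dt, dt, this, Complex.re_ofReal_mul]

/-- entries of a Hermitian matrix -/
theorem herm_entries {P : Mat} (h : P.IsHermitian) :
    P 0 0 = ((P 0 0).re : ℂ) ∧ P 1 1 = ((P 1 1).re : ℂ) ∧ P 1 0 = conj (P 0 1) := by
  refine ⟨?_, ?_, ?_⟩
  · have := h.apply 0 0
    exact (Complex.conj_eq_iff_re.1 this).symm
  · have := h.apply 1 1
    exact (Complex.conj_eq_iff_re.1 this).symm
  · exact (h.apply 1 0).symm

theorem herm_conj (A : SL) {P : Mat} (h : P.IsHermitian) :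
    ((A : Mat) * P * (A : Mat)ᴴ).IsHermitian := by
  rw [Matrix.IsHermitian, Matrix.conjTranspose_mul, Matrix.conjTranspose_mul,
    Matrix.conjTranspose_conjTranspose, h.eq, Matrix.mul_assoc]

theorem trace_real {P : Mat} (h : P.IsHermitian) : P.trace = ((P.trace).re : ℂ) := by
  obtain ⟨h1, h2, _⟩ := herm_entries h
  rw [Matrix.trace_fin_two, h1, h2]
  simp

theorem density_eq {P : Mat} (h : P.IsHermitian) :
    density P = (((P.trace).re⁻¹ : ℝ) : ℂ) • P := by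
  rw [density, trace_real h]
  simp

/-- transformation formula -/
theorem Bb_act (A : SL) {Q P : Mat} (hQ : Q.IsHermitian) (hP : P.IsHermitian)
    (hN : 0 < ((A : Mat) * Q * (A : Mat)ᴴ).trace.re) (hT : 0 < ((A : Mat) * P * (A : Mat)ᴴ).trace.re) :
    Bb (act A Q) (act A P) * ((A : Mat) * Q * (A : Mat)ᴴ).trace.re ^ 2 = Bb Q P := by
  rw [act, act, density_eq (herm_conj A hQ), density_eq (herm_conj A hP), Bb, Bb, be_smul, dt_smul,
    be, bc_conj, dt_conj, ← be]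
  field_simp

/-- positivity -/
theorem be_ge {Q P : Mat} (hQ : Q ∈ sph) (hP : P.PosDef) (hP1 : P.trace = 1) : dt P ≤ be Q P ∧ 0 < dt P := by
  obtain ⟨hQ1, hQ2, hQ3⟩ := hQ
  obtain ⟨q1, q2, q3⟩ := herm_entries hQ1.isHermitian
  obtain ⟨p1, p2, p3⟩ := herm_entries hP.isHermitian
  have hd : 0 < dt P := by
    have := hP.det_pos
    exact (Complex.pos_iff.1 this).1
  refine ⟨?_, hd⟩
  rw [Matrix.trace_fin_two] at hQ2 hP1
  rw [Matrix.det_fin_two] at hQ3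
  have hdP : dt P = (P 0 0).re * (P 1 1).re - ‖P 0 1‖ ^ 2 := by
    rw [dt, Matrix.det_fin_two, p3, Complex.mul_conj, Complex.normSq_eq_norm_sq, p1, p2,
      Complex.sub_re, Complex.re_ofReal_mul, Complex.ofReal_re, Complex.ofReal_re, Complex.ofReal_re]
  have hbe : be Q P = (P 1 1).re * (Q 0 0).re + (P 0 0).re * (Q 1 1).re -
      2 * (P 0 1 * conj (Q 0 1)).re := by
    rw [be, bc, p3, q3, p1, p2, q1, q2]
    simp
    ring
  have hq : (Q 0 0).re * (Q 1 1).re = ‖Q 0 1‖ ^ 2 := by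
    rw [q3, Complex.mul_conj, Complex.normSq_eq_norm_sq, q1, q2] at hQ3
    have := congrArg Complex.re hQ3
    rw [Complex.sub_re, Complex.re_ofReal_mul, Complex.ofReal_re, Complex.ofReal_re,
      Complex.zero_re] at this
    linarith
  have hpt : (P 0 0).re + (P 1 1).re = 1 := by
    have := congrArg Complex.re hP1
    simpa using this
  have hqt : (Q 0 0).re + (Q 1 1).re = 1 := by
    have := congrArg Complex.re hQ2
    simpa using this
  have hq0 : 0 ≤ (Q 0 0).re := (Complex.nonneg_iff.1 (hQ1.diag_nonneg (i := 0))).1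
  have hq1 : 0 ≤ (Q 1 1).re := (Complex.nonneg_iff.1 (hQ1.diag_nonneg (i := 1))).1
  have hp0 : 0 < (P 0 0).re := (Complex.pos_iff.1 (hP.diag_pos (i := 0))).1
  have hp1 : 0 < (P 1 1).re := (Complex.pos_iff.1 (hP.diag_pos (i := 1))).1
  have hre : (P 0 1 * conj (Q 0 1)).re ≤ ‖P 0 1‖ * ‖Q 0 1‖ := by
    refine (Complex.re_le_norm _).trans ?_
    rw [norm_mul, Complex.norm_conj]
  rw [hbe]
  rw [hdP] at hd ⊢
  generalize (P 0 0).re = p at *
  generalize (P 1 1).re = r at *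
  generalize (Q 0 0).re = a at *
  generalize (Q 1 1).re = c at *
  have hn0 : 0 ≤ ‖P 0 1‖ := norm_nonneg _
  have hn1 : 0 ≤ ‖Q 0 1‖ := norm_nonneg _
  generalize ‖P 0 1‖ = u at *
  generalize ‖Q 0 1‖ = v at *
  have hr : r = 1 - p := by linarith
  have hc : c = 1 - a := by linarith
  have e1 : 0 ≤ p - (p * r - u ^ 2) := by
    rw [hr]
    nlinarith
  have e2 : 0 ≤ r - (p * r - u ^ 2) := by
    have : p = 1 - r := by linarith
    rw [this]
    nlinarith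
  have e3 : (u * v) ^ 2 ≤ ((r - (p * r - u ^ 2)) * a) * ((p - (p * r - u ^ 2)) * c) := by
    have : ((r - (p * r - u ^ 2)) * a) * ((p - (p * r - u ^ 2)) * c) =
        (u ^ 2 + (p * r - u ^ 2) ^ 2) * v ^ 2 := by
      rw [← hq]
      rw [hr]
      ring
    rw [this]
    nlinarith [sq_nonneg v, sq_nonneg (p * r - u ^ 2), mul_nonneg (sq_nonneg v) (sq_nonneg (p * r - u ^ 2))]
  have e4 : 2 * (u * v) ≤ (r - (p * r - u ^ 2)) * a + (p - (p * r - u ^ 2)) * c := by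
    refine (abs_le_of_sq_le_sq' ?_ (add_nonneg (mul_nonneg e2 hq0) (mul_nonneg e1 hq1))).2
    nlinarith [sq_nonneg ((r - (p * r - u ^ 2)) * a - (p - (p * r - u ^ 2)) * c)]
  nlinarith

theorem cont_entry (i j : Fin 2) : Continuous fun P : Mat => P i j :=
  continuous_id.matrix_elem i j

theorem cont_dt : Continuous dt := Complex.continuous_re.comp continuous_id.matrix_det

theorem cont_be_right (Q : Mat) : Continuous (be Q) := by
  have h := cont_entry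
  refine Complex.continuous_re.comp ?_
  exact ((((h 1 1).mul continuous_const).sub ((h 0 1).mul continuous_const)).sub
    ((h 1 0).mul continuous_const)).add ((h 0 0).mul continuous_const)

theorem cont_be_left (P : Mat) : Continuous fun Q => be Q P := by
  have h := cont_entry
  refine Complex.continuous_re.comp ?_
  exact (((continuous_const.mul (h 0 0)).sub (continuous_const.mul (h 1 0))).sub
    (continuous_const.mul (h 0 1))).add (continuous_const.mul (h 1 1))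

theorem dt_le {P : Mat} (hP : P.PosDef) (hP1 : P.trace = 1) : dt P ≤ 1 / 4 := by
  obtain ⟨p1, p2, p3⟩ := herm_entries hP.isHermitian
  rw [Matrix.trace_fin_two] at hP1
  have hdP : dt P = (P 0 0).re * (P 1 1).re - ‖P 0 1‖ ^ 2 := by
    rw [dt, Matrix.det_fin_two, p3, Complex.mul_conj, Complex.normSq_eq_norm_sq, p1, p2,
      Complex.sub_re, Complex.re_ofReal_mul, Complex.ofReal_re, Complex.ofReal_re, Complex.ofReal_re]
  have hpt : (P 0 0).re + (P 1 1).re = 1 := by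
    have := congrArg Complex.re hP1
    simpa using this
  rw [hdP]
  nlinarith [sq_nonneg ((P 0 0).re - (P 1 1).re), sq_nonneg ‖P 0 1‖]

theorem trace_sq_ge (A : SL) {P : Mat} (hP : P.IsHermitian)
    (hT : 0 < ((A : Mat) * P * (A : Mat)ᴴ).trace.re) (h1 : (act A P).PosDef)
    (h2 : (act A P).trace = 1) : 4 * dt P ≤ ((A : Mat) * P * (A : Mat)ᴴ).trace.re ^ 2 := by
  have h := dt_le h1 h2
  rw [act, density_eq (herm_conj A hP), dt_smul, dt_conj] at h
  have h3 : 0 < ((A : Mat) * P * (A : Mat)ᴴ).trace.re ^ 2 := by positivity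
  rw [inv_pow, inv_mul_eq_div, div_le_iff₀ h3] at h
  linarith

/-- bilinear expansions -/
theorem be_comb (s : ℝ) (R P Q : Mat) : be R ((1 - s) • P + s • Q) = (1 - s) * be R P + s * be R Q := by
  have : bc R ((1 - s) • P + s • Q) = ((1 - s : ℝ) : ℂ) * bc R P + (s : ℂ) * bc R Q := by
    simp only [bc, Matrix.add_apply, Matrix.smul_apply, Complex.real_smul]
    push_cast
    ring
  rw [be, this, Complex.add_re, Complex.re_ofReal_mul, Complex.re_ofReal_mul, be, be]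

theorem dt_comb (s : ℝ) (P Q : Mat) :
    dt ((1 - s) • P + s • Q) = (1 - s) ^ 2 * dt P + (1 - s) * s * be Q P + s ^ 2 * dt Q := by
  have : ((1 - s) • P + s • Q).det = (((1 - s) ^ 2 : ℝ) : ℂ) * P.det + (((1 - s) * s : ℝ) : ℂ) * bc Q P +
      ((s ^ 2 : ℝ) : ℂ) * Q.det := by
    simp only [Matrix.det_fin_two, bc, Matrix.add_apply, Matrix.smul_apply, Complex.real_smul]
    push_cast
    ring
  rw [dt, this, Complex.add_re, Complex.add_re, Complex.re_ofReal_mul, Complex.re_ofReal_mul,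
    Complex.re_ofReal_mul]
  rfl

theorem be_self {Q : Mat} (hQ : Q.det = 0) : be Q Q = 0 ∧ dt Q = 0 := by
  refine ⟨?_, by rw [dt, hQ, Complex.zero_re]⟩
  have : bc Q Q = 2 * Q.det := by
    rw [bc, Matrix.det_fin_two]
    ring
  rw [be, this, hQ, mul_zero, Complex.zero_re]

theorem exists_low {Γ : Type} (f : Γ → ℝ) (hf : ∀ γ, 0 < f γ) {δ : ℝ} (hδ : 0 < δ)
    (hfin : {γ | f γ < δ}.Finite) : ∃ c : ℝ, 0 < c ∧ ∀ γ, c ≤ f γ := by
  by_cases he : {γ | f γ < δ}.Nonempty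
  · obtain ⟨γ0, h0, hmin⟩ := Set.exists_min_image _ f hfin he
    refine ⟨min δ (f γ0), lt_min hδ (hf _), fun γ => ?_⟩
    by_cases hγ : f γ < δ
    · exact (min_le_right _ _).trans (hmin γ hγ)
    · exact (min_le_left _ _).trans (not_lt.1 hγ)
  · refine ⟨δ, hδ, fun γ => ?_⟩
    by_contra h
    exact he ⟨γ, not_le.1 h⟩

section main

variable {Γ : Type} [Group Γ] {ρ : Γ →* SL}

/-- (iii) -/
theorem exists_small (hLFR : StLFR) (hLQC : StLQC) (hLMX : StLMX) (hLLS : StLLS) (hd : IsDiscrete ρ)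
    {C : Set Mat} (hC0 : C.Nonempty) (hCc : Convex ℝ C) (hCp : ∀ P ∈ C, P.PosDef ∧ P.trace = 1)
    (hCi : ∀ γ, ∀ P ∈ C, density ((ρ γ : Mat) * P * (ρ γ : Mat)ᴴ) ∈ C)
    {R : Mat} (hR : R ∈ limitSet ρ) {η : ℝ} (hη : 0 < η) : ∃ P ∈ C, Bb R P < η := by
  obtain ⟨P0, hP0⟩ := hC0
  obtain ⟨hP0p, hP0t⟩ := hCp P0 hP0
  obtain ⟨_, hsub, _, _, hlls⟩ := hLLS Γ ρ hd
  have hRs := hsub hR
  obtain ⟨hbe, hdt⟩ := be_ge hRs hP0p hP0t
  obtain ⟨r1, r2⟩ := be_self hRs.2.2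
  obtain ⟨a, ha⟩ : ∃ a, a = be R P0 := ⟨_, rfl⟩
  have ha0 : 0 < a := by
    rw [ha]
    linarith
  obtain ⟨s, hsd⟩ : ∃ s, s = 2 * a / (2 * a + η) := ⟨_, rfl⟩
  have hs0 : 0 < s := by
    rw [hsd]
    positivity
  have hs1 : 1 - s = η / (2 * a + η) := by
    rw [hsd]
    field_simp
    ring
  have hs2 : 0 < 1 - s := by
    rw [hs1]
    positivity
  obtain ⟨h, hh⟩ : ∃ h : Mat → ℝ, ∀ P, h P = Bb R ((1 - s) • P0 + s • P) := ⟨_, fun _ => rfl⟩
  have hden : 0 < dt ((1 - s) • P0 + s • R) := by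
    rw [dt_comb, r2, ← ha]
    positivity
  have hval : h R < η := by
    rw [hh, Bb, div_lt_iff₀ hden, be_comb, dt_comb, r1, r2, ← ha]
    have h1 : (1 - s) * a < η * s := by
      rw [hs1, hsd, div_mul_eq_mul_div, mul_div_assoc', div_lt_div_iff_of_pos_right (by positivity)]
      nlinarith
    have h2 : 0 < (1 - s) * a := by positivity
    have h3 : 0 ≤ η * ((1 - s) ^ 2 * dt P0) := by positivity
    nlinarith [mul_lt_mul_of_pos_left h1 h2]
  have hcont : ContinuousAt h R := by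
    have h1 : h = fun P => be R ((1 - s) • P0 + s • P) ^ 2 / dt ((1 - s) • P0 + s • P) := funext hh
    rw [h1]
    have h2 : Continuous fun P : Mat => (1 - s) • P0 + s • P :=
      continuous_const.add (continuous_id.const_smul s)
    exact ContinuousAt.div (((cont_be_right R).comp h2).pow 2).continuousAt
      (cont_dt.comp h2).continuousAt hden.ne'
  have hev := hcont.eventually (gt_mem_nhds hval)
  obtain ⟨δ, hδ, hδ2⟩ := ((hLFR.2.2.2 R).mem_iff).1 hev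
  obtain ⟨d, hdd⟩ : ∃ d, d = dt P0 := ⟨_, rfl⟩
  rw [← hdd] at hdt
  obtain ⟨t0, ht0, ht0d⟩ : ∃ t0 : ℝ, 0 < t0 ∧ t0 ^ 2 = 4 * d :=
    ⟨Real.sqrt (4 * d), Real.sqrt_pos.2 (by positivity), Real.sq_sqrt (by positivity)⟩
  obtain ⟨γ, hγ1, hγ2⟩ := hlls R hR (δ / 4) (by positivity) (8 / (δ * t0))
  obtain ⟨m1, _, _, _, m2, m3⟩ := hLMX
  obtain ⟨hT, hfr⟩ := m3 (ρ γ) P0 hP0p hP0t
  obtain ⟨_, _, _, _, _, _, _, _, _, q1, _⟩ := hLQC
  obtain ⟨a1, a2⟩ := q1 (ρ γ) P0 hP0p hP0t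
  have hTge := trace_sq_ge (ρ γ) hP0p.isHermitian hT a1 a2
  rw [← hdd, ← ht0d] at hTge
  have hTt : t0 ≤ ((ρ γ : Mat) * P0 * (ρ γ : Mat)ᴴ).trace.re := by
    exact abs_le_of_sq_le_sq' hTge hT.le |>.2
  have hmem : act (ρ γ) P0 ∈ C := hCi γ P0 hP0
  refine ⟨(1 - s) • P0 + s • act (ρ γ) P0, hCc hP0 hmem hs2.le hs0.le (by ring), ?_⟩
  rw [← hh]
  apply hδ2
  change fr (act (ρ γ) P0) R < δ
  have hhs : 0 < hs (ρ γ : Mat) := by
    have := m1 (ρ γ)
    linarith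
  have f1 : fr (orb ρ γ) (act (ρ γ) P0) < δ / 4 := by
    refine lt_of_le_of_lt hfr ?_
    rw [div_lt_iff₀ (by positivity)]
    have h1 : 8 < hs (ρ γ : Mat) * (δ * t0) := by
      rwa [div_lt_iff₀ (by positivity)] at hγ2
    have h2 : hs (ρ γ : Mat) * t0 ≤ hs (ρ γ : Mat) * ((ρ γ : Mat) * P0 * (ρ γ : Mat)ᴴ).trace.re :=
      mul_le_mul_of_nonneg_left hTt hhs.le
    nlinarith
  have f2 := hLFR.2.1 (act (ρ γ) P0) (orb ρ γ) R
  rw [(hLFR.1 (act (ρ γ) P0) (orb ρ γ)).2.1] at f2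
  have f3 : Real.sqrt (fr (orb ρ γ) (act (ρ γ) P0)) < Real.sqrt δ / 2 := by
    have : Real.sqrt δ / 2 = Real.sqrt (δ / 4) := by
      rw [show δ / 4 = δ / 2 ^ 2 by ring, Real.sqrt_div hδ.le, Real.sqrt_sq (by norm_num)]
    rw [this]
    exact Real.sqrt_lt_sqrt (hLFR.1 _ _).1 f1
  have f4 : Real.sqrt (fr (orb ρ γ) R) < Real.sqrt δ / 2 := by
    have : Real.sqrt δ / 2 = Real.sqrt (δ / 4) := by
      rw [show δ / 4 = δ / 2 ^ 2 by ring, Real.sqrt_div hδ.le, Real.sqrt_sq (by norm_num)]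
    rw [this]
    exact Real.sqrt_lt_sqrt (hLFR.1 _ _).1 hγ1
  have f5 : Real.sqrt (fr (act (ρ γ) P0) R) < Real.sqrt δ := by linarith
  exact (Real.sqrt_lt_sqrt_iff (hLFR.1 _ _).1).1 f5

/-- (ii) -/
theorem exists_low_act (hLFR : StLFR) (hLMX : StLMX) {Q : Mat} (hQ : Q ∈ sph) (hQL : Q ∉ limitSet ρ) :
    ∃ c : ℝ, 0 < c ∧ ∀ γ, c ≤ ((ρ γ : Mat) * Q * (ρ γ : Mat)ᴴ).trace.re := by
  obtain ⟨m1, _, _, _, m2, m3⟩ := hLMX
  have h1 : ¬ ∀ s ∈ 𝓝 Q, ∃ᶠ γ in cofinite, orb ρ γ ∈ s := by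
    intro h
    exact hQL (mapClusterPt_iff_frequently.2 h)
  push Not at h1
  obtain ⟨U, hU, hUf⟩ := h1
  obtain ⟨δ, hδ, hδU⟩ := ((hLFR.2.2.2 Q).mem_iff).1 hU
  have h2 : {γ : Γ | orb ρ γ ∈ U}.Finite := by
    rw [Filter.eventually_cofinite] at hUf
    simpa using hUf
  have h4 : {γ : Γ | ((ρ γ : Mat) * Q * (ρ γ : Mat)ᴴ).trace.re < δ}.Finite := by
    have h5 : ((fun γ : Γ => γ⁻¹) ⁻¹' {γ : Γ | orb ρ γ ∈ U}).Finite :=
      h2.preimage (inv_injective.injOn)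
    refine h5.subset ?_
    intro γ hγ
    by_contra hcon
    have h6 : δ ≤ fr (orb ρ γ⁻¹) Q := by
      by_contra h7
      exact hcon (hδU (not_le.1 h7))
    have h8 := (m2 (ρ γ) Q hQ).2.2
    have h9 : density (((ρ γ)⁻¹ : SL) * (((ρ γ)⁻¹ : SL) : Mat)ᴴ) = orb ρ γ⁻¹ := by
      rw [orb, map_inv]
    rw [h9] at h8
    have h10 := m1 (ρ γ)
    have hγ' : ((ρ γ : Mat) * Q * (ρ γ : Mat)ᴴ).trace.re < δ := hγ
    nlinarith [mul_le_mul h10 h6 hδ.le (by linarith : (0 : ℝ) ≤ hs (ρ γ : Mat))]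
  exact exists_low _ (fun γ => (m2 (ρ γ) Q hQ).1) hδ h4

theorem act_inv_act (hLQC : StLQC) (A : SL) {P : Mat} (hP : P.PosSemidef) (hP1 : P.trace = 1) :
    act A (act A⁻¹ P) = P := by
  obtain ⟨_, _, _, _, _, _, _, _, _, _, q2⟩ := hLQC
  rw [← q2 A A⁻¹ P hP hP1, mul_inv_cancel]
  rw [act, density]
  simp [hP1]

theorem hLCO (hLFR : StLFR) (hLQC : StLQC) (hLMX : StLMX) (hLLS : StLLS) : StLCO := by
  intro Γ _ ρ hcc
  obtain ⟨hd, C, K, hC0, hCc, hCp, hCi, hK, hKp, hCK⟩ := hcc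
  obtain ⟨m1, _, _, _, m2, m3⟩ := id hLMX
  obtain ⟨_, _, _, _, _, _, _, _, qs, q1, q2⟩ := id hLQC
  obtain ⟨hcl, hsub, _, _, _⟩ := hLLS Γ ρ hd
  -- the minimum over `K`
  obtain ⟨P00, hP00⟩ := hC0
  obtain ⟨γ00, hγ00⟩ := hCK P00 hP00
  obtain ⟨K0, hK0, hK0min⟩ := hK.exists_isMinOn ⟨_, hγ00⟩ cont_dt.continuousOn
  obtain ⟨m, hm⟩ : ∃ m, m = dt K0 := ⟨_, rfl⟩
  have hQinf : Qinf ∈ sph := hLQC.2.1
  have hm0 : 0 < m := by
    rw [hm]
    exact (be_ge hQinf (hKp K0 hK0).1 (hKp K0 hK0).2).2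
  have hmK : ∀ Q ∈ sph, ∀ P ∈ K, m ≤ Bb Q P := by
    intro Q hQ P hP
    obtain ⟨b1, b2⟩ := be_ge hQ (hKp P hP).1 (hKp P hP).2
    have b3 : m ≤ dt P := by
      rw [hm]
      exact hK0min hP
    rw [Bb, le_div_iff₀ b2]
    nlinarith
  -- transformation
  have htr : ∀ γ, ∀ Q ∈ sph, ∀ P ∈ C, Bb (act (ρ γ) Q) (act (ρ γ) P) *
      ((ρ γ : Mat) * Q * (ρ γ : Mat)ᴴ).trace.re ^ 2 = Bb Q P := by
    intro γ Q hQ P hP
    exact Bb_act (ρ γ) hQ.1.isHermitian (hCp P hP).1.isHermitian (m2 (ρ γ) Q hQ).1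
      (m3 (ρ γ) P (hCp P hP).1 (hCp P hP).2).1
  -- the set `Z`
  have hZ : ∃ ε : ℝ, 0 < ε ∧ ∀ R ∈ limitSet ρ, ∀ Q : Mat, (∀ P ∈ C, m / 4 ≤ Bb Q P) → ε ≤ fr Q R := by
    have hcomp : IsCompact (limitSet ρ) := by
      have h1 : IsCompact (Set.univ.pi fun _ : Fin 2 => Set.univ.pi fun _ : Fin 2 => closedBall (0 : ℂ) 1) :=
        isCompact_univ_pi fun _ => isCompact_univ_pi fun _ => isCompact_closedBall 0 1
      refine h1.of_isClosed_subset hcl ?_
      intro Q hQ i _ j _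
      rw [mem_closedBall_zero_iff]
      obtain ⟨s1, s2, s3⟩ := hsub hQ
      obtain ⟨e1, e2, e3⟩ := herm_entries s1.isHermitian
      have d0 : 0 ≤ (Q 0 0).re := (Complex.nonneg_iff.1 (s1.diag_nonneg (i := 0))).1
      have d1 : 0 ≤ (Q 1 1).re := (Complex.nonneg_iff.1 (s1.diag_nonneg (i := 1))).1
      have dt1 : (Q 0 0).re + (Q 1 1).re = 1 := by
        rw [Matrix.trace_fin_two] at s2
        have := congrArg Complex.re s2
        simpa using this
      have hq : (Q 0 0).re * (Q 1 1).re = ‖Q 0 1‖ ^ 2 := by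
        rw [Matrix.det_fin_two, e3, Complex.mul_conj, Complex.normSq_eq_norm_sq, e1, e2] at s3
        have := congrArg Complex.re s3
        rw [Complex.sub_re, Complex.re_ofReal_mul, Complex.ofReal_re, Complex.ofReal_re,
          Complex.zero_re] at this
        linarith
      have n01 : ‖Q 0 1‖ ≤ 1 := by
        have : ‖Q 0 1‖ ^ 2 ≤ 1 := by
          rw [← hq]
          nlinarith
        nlinarith [norm_nonneg (Q 0 1)]
      fin_cases i <;> fin_cases j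
      · change ‖Q 0 0‖ ≤ 1
        rw [e1, Complex.norm_real, Real.norm_of_nonneg d0]
        linarith
      · exact n01
      · change ‖Q 1 0‖ ≤ 1
        rw [e3, Complex.norm_conj]
        exact n01
      · change ‖Q 1 1‖ ≤ 1
        rw [e2, Complex.norm_real, Real.norm_of_nonneg d1]
        linarith
    refine hcomp.induction_on (p := fun S => ∃ ε : ℝ, 0 < ε ∧ ∀ R ∈ S, ∀ Q : Mat,
      (∀ P ∈ C, m / 4 ≤ Bb Q P) → ε ≤ fr Q R) ?_ ?_ ?_ ?_
    · exact ⟨1, one_pos, fun R hR => absurd hR (Set.notMem_empty R)⟩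
    · rintro S T hST ⟨ε, hε, h⟩
      exact ⟨ε, hε, fun R hR => h R (hST hR)⟩
    · rintro S T ⟨ε, hε, h⟩ ⟨ε', hε', h'⟩
      refine ⟨min ε ε', lt_min hε hε', ?_⟩
      rintro R (hR | hR) Q hQ
      · exact (min_le_left _ _).trans (h R hR Q hQ)
      · exact (min_le_right _ _).trans (h' R hR Q hQ)
    · intro R hR
      obtain ⟨P, hP, hPR⟩ := exists_small hLFR hLQC hLMX hLLS hd ⟨P00, hP00⟩ hCc hCp hCi hR
        (η := m / 4) (by positivity)
      have hcont : Continuous fun Q => Bb Q P := ((cont_be_left P).pow 2).div_const _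
      have hev := hcont.continuousAt.eventually (gt_mem_nhds hPR)
      obtain ⟨δ, hδ, hδ2⟩ := ((hLFR.2.2.2 R).mem_iff).1 hev
      refine ⟨{R' | fr R' R < δ / 4}, mem_nhdsWithin_of_mem_nhds
        ((hLFR.2.2.2 R).mem_of_mem (by positivity)), δ / 4, by positivity, ?_⟩
      intro R' hR' Q hQ
      by_contra hcon
      push Not at hcon
      have hR'' : fr R' R < δ / 4 := hR'
      have f0 : Real.sqrt δ / 2 = Real.sqrt (δ / 4) := by
        rw [show δ / 4 = δ / 2 ^ 2 by ring, Real.sqrt_div hδ.le, Real.sqrt_sq (by norm_num)]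
      have f1 := hLFR.2.1 Q R' R
      have f2 := Real.sqrt_lt_sqrt (hLFR.1 _ _).1 hcon
      have f3 := Real.sqrt_lt_sqrt (hLFR.1 _ _).1 hR''
      have f4 : Real.sqrt (fr Q R) < Real.sqrt δ := by linarith
      have f5 : fr Q R < δ := (Real.sqrt_lt_sqrt_iff (hLFR.1 _ _).1).1 f4
      have f6 : Bb Q P < m / 4 := hδ2 f5
      exact absurd (hQ P hP) (not_le.2 f6)
  obtain ⟨ε, hε, hZ⟩ := hZ
  refine ⟨ε, hε, ?_⟩
  intro Q hQ hQL
  obtain ⟨c, hc, hcl⟩ := exists_low_act hLFR hLMX hQ hQL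
  have hlow : ∀ P ∈ C, m * c ^ 2 ≤ Bb Q P := by
    intro P hP
    obtain ⟨γ, hγ⟩ := hCK P hP
    rw [← htr γ Q hQ P hP]
    have h1 := hmK _ (qs (ρ γ) Q hQ) _ hγ
    have h2 : c ^ 2 ≤ ((ρ γ : Mat) * Q * (ρ γ : Mat)ᴴ).trace.re ^ 2 := by
      have := hcl γ
      gcongr
    exact mul_le_mul h1 h2 (by positivity) (hm0.le.trans h1)
  obtain ⟨I, hI⟩ : ∃ I, I = sInf (Bb Q '' C) := ⟨_, rfl⟩
  have hbdd : BddBelow (Bb Q '' C) := ⟨m * c ^ 2, by
    rintro _ ⟨P, hP, rfl⟩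
    exact hlow P hP⟩
  have hne : (Bb Q '' C).Nonempty := ⟨_, P00, hP00, rfl⟩
  have hI0 : 0 < I := by
    have : m * c ^ 2 ≤ I := by
      rw [hI]
      exact le_csInf hne (by
        rintro _ ⟨P, hP, rfl⟩
        exact hlow P hP)
    have h2 : 0 < m * c ^ 2 := by positivity
    linarith
  obtain ⟨_, ⟨P, hP, rfl⟩, hPI⟩ := exists_lt_of_csInf_lt hne (show sInf (Bb Q '' C) < 4 * I by
    rw [← hI]
    linarith)
  obtain ⟨γ, hγ⟩ := hCK P hP
  refine ⟨γ, fun R hR => hZ R hR _ ?_⟩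
  intro P' hP'
  have hP'' : act (ρ γ)⁻¹ P' ∈ C := by
    have := hCi γ⁻¹ P' hP'
    rwa [map_inv] at this
  have hback : act (ρ γ) (act (ρ γ)⁻¹ P') = P' :=
    act_inv_act hLQC (ρ γ) (hCp P' hP').1.posSemidef (hCp P' hP').2
  have h1 := htr γ Q hQ _ hP''
  have h2 := htr γ Q hQ P hP
  have h3 : I ≤ Bb Q (act (ρ γ)⁻¹ P') := by
    rw [hI]
    exact csInf_le hbdd ⟨_, hP'', rfl⟩
  have h4 := hmK _ (qs (ρ γ) Q hQ) _ hγ
  have hN := (m2 (ρ γ) Q hQ).1
  have hN2 : 0 < ((ρ γ : Mat) * Q * (ρ γ : Mat)ᴴ).trace.re ^ 2 := by positivity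
  rw [hback] at h1
  have h5 : m * ((ρ γ : Mat) * Q * (ρ γ : Mat)ᴴ).trace.re ^ 2 ≤ Bb Q P := by
    rw [← h2]
    exact mul_le_mul_of_nonneg_right h4 hN2.le
  have h6 : m / 4 * ((ρ γ : Mat) * Q * (ρ γ : Mat)ᴴ).trace.re ^ 2 ≤
      Bb (act (ρ γ) Q) P' * ((ρ γ : Mat) * Q * (ρ γ : Mat)ᴴ).trace.re ^ 2 := by
    rw [h1]
    linarith
  exact le_of_mul_le_mul_right h6 hN2

end main

end

end Pool.Agent.Helper72.QD
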