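import Pool.Agent.Helper20.QD.St1

/-!
# Project QD, part B, module TPB: elementary rules for continuous logarithms
-/

set_option autoImplicit false

open Filter Topology Matrix Set Metric
open scoped ComplexConjugate

namespace Pool.Agent.Helper72.QD

open Pool.Agent.Helper35.PM Pool.Agent.Helper20.QD

theorem continuousOn_inv {S : Set ℂ} {β : ℂ → ℂ} (hS : IsCompact S) (hβ : ContinuousOn β S)
    (hinj : InjOn β S) : ContinuousOn (Function.invFunOn β S) (β '' S) := by
  rw [continuousOn_iff_isClosed]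
  intro t ht
  refine ⟨β '' (S ∩ t), ?_, ?_⟩
  · exact ((hS.inter_right ht).image_of_continuousOn (hβ.mono inter_subset_left)).isClosed
  · ext w
    constructor
    · rintro ⟨h1, z, hz, rfl⟩
      have h2 : Function.invFunOn β S (β z) = z := hinj.leftInvOn_invFunOn hz
      have h3 : Function.invFunOn β S (β z) ∈ t := h1
      rw [h2] at h3
      exact ⟨⟨z, ⟨hz, h3⟩, rfl⟩, ⟨z, hz, rfl⟩⟩
    · rintro ⟨⟨z, ⟨hz, hzt⟩, rfl⟩, h⟩
      refine ⟨?_, h⟩
      change Function.invFunOn β S (β z) ∈ t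
      rw [hinj.leftInvOn_invFunOn hz]
      exact hzt

theorem hTPB : StTPB := by
  refine ⟨?_, ?_, ?_, ?_, ?_, ?_⟩
  · rintro S J β u hβ hm ⟨g, hg, hgu⟩
    exact ⟨fun z => g (β z), hg.comp hβ hm, fun z hz => hgu _ (hm hz)⟩
  · rintro S β u hS hβ hinj ⟨g, hg, hgu⟩
    refine ⟨fun w => g (Function.invFunOn β S w), ?_, ?_⟩
    · refine hg.comp (continuousOn_inv hS hβ hinj) ?_
      intro w hw
      exact Function.invFunOn_mem hw
    · rintro w ⟨z, hz, rfl⟩
      beta_reduce
      rw [hinj.leftInvOn_invFunOn hz]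
      exact hgu z hz
  · rintro K u v ⟨g, hg, hgu⟩ ⟨h, hh, hhv⟩
    exact ⟨fun z => g z + h z, hg.add hh, fun z hz => by
      beta_reduce
      rw [Complex.exp_add, hgu z hz, hhv z hz]⟩
  · rintro K u n ⟨g, hg, hgu⟩
    exact ⟨fun z => n * g z, continuousOn_const.mul hg, fun z hz => by
      beta_reduce
      rw [Complex.exp_int_mul, hgu z hz]⟩
  · intro K u hu h1
    have hsl : ∀ z ∈ K, u z ∈ Complex.slitPlane := by
      intro z hz
      have := Complex.mem_slitPlane_of_norm_lt_one (h1 z hz)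
      rwa [add_sub_cancel] at this
    exact ⟨fun z => Complex.log (u z), hu.clog hsl, fun z hz =>
      (Complex.exp_log (Complex.slitPlane_ne_zero (hsl z hz))).symm⟩
  · rintro K L u v hKL ⟨g, hg, hgu⟩ huv
    exact ⟨g, hg.mono hKL, fun z hz => by rw [← huv z hz, hgu z (hKL hz)]⟩

end Pool.Agent.Helper72.QD
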