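import Pool.Agent.Helper20.QD.St5
import Pool.Agent.Helper72.QD.M_TPB

/-!
# Project QD, part B, module WDG: the welding has degree one
-/

set_option autoImplicit false

open Filter Topology Matrix Set Metric MeasureTheory
open scoped ComplexConjugate ComplexOrder

namespace Pool.Agent.Helper72.QD

open Pool.Agent.Helper35.PM Pool.Agent.Helper20.QD

theorem hWDG (hTCV : StTCV) (hTPB : StTPB) (hSUB : StSUB) (hRIJ : StRIJ) : StWDG := by
  intro Γ _ ρ σ τ f F hG h1 h2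
  obtain ⟨tpb1, _, tpb3, tpb4, _, tpb6⟩ := hTPB
  have hSD : SS ⊆ DD := sphere_subset_closedBall
  obtain ⟨φ, hφ⟩ : ∃ φ : ℂ → ℂ, ∀ ζ, φ ζ = Function.invFunOn f SS (F ζ) := ⟨_, fun _ => rfl⟩
  have hmem : ∀ ζ ∈ SS, F ζ ∈ f '' SS := by
    intro ζ hζ
    rw [h1.bijS.image_eq]
    exact h2.bijS.mapsTo hζ
  have hφS : ∀ ζ ∈ SS, φ ζ ∈ SS := by
    intro ζ hζ
    rw [hφ]
    exact Function.invFunOn_mem (hmem ζ hζ)
  have hfφ : ∀ ζ ∈ SS, f (φ ζ) = F ζ := by
    intro ζ hζ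
    rw [hφ]
    exact Function.invFunOn_eq (hmem ζ hζ)
  have hφc : ContinuousOn φ SS := by
    have h3 := continuousOn_inv (isCompact_sphere (0 : ℂ) 1) (h1.cont.mono hSD) h1.bijS.injOn
    have h4 : ContinuousOn F SS := h2.cont.mono (by
      intro z hz
      change 1 ≤ ‖z‖
      rw [mem_sphere_zero_iff_norm.1 hz])
    have h5 : φ = fun ζ => Function.invFunOn f SS (F ζ) := funext hφ
    rw [h5]
    exact h3.comp h4 hmem
  -- (i)
  obtain ⟨p, hp⟩ : ∃ p, p = f 0 := ⟨_, rfl⟩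
  have h0D : (0 : ℂ) ∈ D := mem_ball_self one_pos
  have hpinn : p ∈ inn (Lam ρ) := by
    rw [hp]
    exact h1.bij.mapsTo h0D
  have hDD : ∀ z ∈ DD, z ∈ D ∨ z ∈ SS := by
    intro z hz
    rcases lt_or_eq_of_le (mem_closedBall.1 hz) with h | h
    · exact Or.inl (mem_ball.2 h)
    · exact Or.inr (mem_sphere.2 h)
  have hfne : ∀ z ∈ DD, z ≠ 0 → f z ≠ p := by
    intro z hz hz0 hzp
    rcases hDD z hz with h | h
    · rw [hp] at hzp
      exact hz0 (h1.bij.injOn h h0D hzp)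
    · have h3 := h1.bijS.mapsTo h
      rw [hzp] at h3
      exact hpinn.1 h3
  have hder : deriv f 0 ≠ 0 := (hRIJ D f isOpen_ball h1.hol h1.bij.injOn).1 0 h0D
  have hlog1 : LogOn DD (dslope f 0) := by
    apply hTCV DD _ (convex_closedBall 0 1)
    · rw [continuousOn_dslope (closedBall_mem_nhds 0 one_pos)]
      exact ⟨h1.cont, h1.hol.differentiableAt (isOpen_ball.mem_nhds h0D)⟩
    · intro z hz
      by_cases hz0 : z = 0
      · rw [hz0, dslope_same]
        exact hder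
      · rw [dslope_of_ne _ hz0, slope_def_field, ← hp]
        exact div_ne_zero (sub_ne_zero.2 (hfne z hz hz0)) (by rwa [sub_zero])
  have hne0 : ∀ z ∈ SS, z ≠ 0 := by
    intro z hz h
    rw [h] at hz
    simp at hz
  have hlog2 : LogOn SS (fun ζ => dslope f 0 (φ ζ)) :=
    tpb1 SS DD φ (dslope f 0) hφc (fun ζ hζ => hSD (hφS ζ hζ)) hlog1
  have hlog3 : LogOn SS (fun ζ => (F ζ - p) * (φ ζ)⁻¹) := by
    refine tpb6 SS SS _ _ le_rfl hlog2 ?_
    intro ζ hζ
    have h3 := hne0 _ (hφS ζ hζ)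
    rw [dslope_of_ne _ h3, slope_def_field, ← hp, hfφ ζ hζ, sub_zero, div_eq_mul_inv]
  -- (ii)
  obtain ⟨a, c, ha, hasy⟩ := h2.asy
  have hFne : ∀ z : ℂ, 1 ≤ ‖z‖ → F z ≠ p := by
    intro z hz hzp
    rcases lt_or_eq_of_le hz with h | h
    · have h3 := h2.bij.mapsTo h
      rw [hzp] at h3
      exact hpinn.2 h3.2
    · have h3 := h2.bijS.mapsTo (mem_sphere_zero_iff_norm.2 h.symm)
      rw [hzp] at h3
      exact hpinn.1 h3
  obtain ⟨K, hK⟩ : ∃ K : ℂ → ℂ, ∀ w, K w = if w = 0 then a else (F w⁻¹ - p) * w := ⟨_, fun _ => rfl⟩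
  have hinv1 : ∀ w ∈ DD, w ≠ 0 → 1 ≤ ‖w⁻¹‖ := by
    intro w hw hw0
    rw [norm_inv]
    exact one_le_inv_iff₀.2 ⟨norm_pos_iff.2 hw0, mem_closedBall_zero_iff.1 hw⟩
  have hKc : ContinuousOn K DD := by
    intro w hw
    by_cases hw0 : w = 0
    · subst hw0
      have h3 : ContinuousAt K 0 := by
        have h4 : Tendsto (fun w : ℂ => (F w⁻¹ - a * w⁻¹ - c) * w + (a + (c - p) * w)) (𝓝[≠] 0)
            (𝓝 (0 * 0 + (a + (c - p) * 0))) := by
          have h5 : Tendsto (fun w : ℂ => F w⁻¹ - a * w⁻¹ - c) (𝓝[≠] 0) (𝓝 0) :=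
            hasy.comp tendsto_inv₀_nhdsNE_zero
          have h6 : Tendsto (fun w : ℂ => w) (𝓝[≠] 0) (𝓝 0) := tendsto_id.mono_left nhdsWithin_le_nhds
          exact (h5.mul h6).add (tendsto_const_nhds.add (tendsto_const_nhds.mul h6))
        have h7 : Tendsto K (𝓝[≠] 0) (𝓝 a) := by
          have h8 : (0 : ℂ) * 0 + (a + (c - p) * 0) = a := by ring
          rw [h8] at h4
          refine h4.congr' ?_
          filter_upwards [self_mem_nhdsWithin] with w hw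
          have hw' : w ≠ 0 := hw
          rw [hK, if_neg hw']
          field_simp
          ring
        have h9 : K 0 = a := by rw [hK, if_pos rfl]
        rw [← h9] at h7
        exact continuousAt_iff_punctured_nhds.2 h7
      exact h3.continuousWithinAt
    · have h3 : ContinuousWithinAt (fun w : ℂ => (F w⁻¹ - p) * w) (DD \ {0}) w := by
        have h4 : ContinuousOn (fun w : ℂ => (F w⁻¹ - p) * w) (DD \ {0}) := by
          have h5 : ContinuousOn (fun w : ℂ => w⁻¹) (DD \ {0}) :=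
            continuousOn_inv₀.mono fun w hw => hw.2
          exact ((h2.cont.comp h5 fun w hw => hinv1 w hw.1 hw.2).sub continuousOn_const).mul continuousOn_id
        exact h4 w ⟨hw, hw0⟩
      have h6 : ContinuousWithinAt (fun w : ℂ => (F w⁻¹ - p) * w) DD w := by
        rw [sdiff_eq, inter_comm] at h3
        exact (continuousWithinAt_inter' (t := {0}ᶜ) (by
          exact mem_nhdsWithin_of_mem_nhds (isOpen_compl_singleton.mem_nhds hw0))).1 (by
          rwa [inter_comm] at h3)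
      refine h6.congr_of_eventuallyEq ?_ ?_
      · filter_upwards [mem_nhdsWithin_of_mem_nhds (isOpen_compl_singleton.mem_nhds hw0)] with v hv
        have hv' : v ≠ 0 := hv
        rw [hK, if_neg hv']
      · rw [hK, if_neg hw0]
  have hlog4 : LogOn DD K := by
    apply hTCV DD _ (convex_closedBall 0 1) hKc
    intro w hw
    rw [hK]
    split_ifs with hw0
    · exact ha
    · exact mul_ne_zero (sub_ne_zero.2 (hFne _ (hinv1 w hw hw0))) hw0
  have hlog5 : LogOn SS (fun ζ => K ζ⁻¹) := by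
    refine tpb1 SS DD (fun ζ => ζ⁻¹) K (continuousOn_inv₀.mono fun z hz => hne0 z hz) ?_ hlog4
    intro ζ hζ
    change ζ⁻¹ ∈ DD
    rw [mem_closedBall_zero_iff, norm_inv, mem_sphere_zero_iff_norm.1 hζ, inv_one]
  have hlog6 : LogOn SS (fun ζ => (F ζ - p) * ζ⁻¹) := by
    refine tpb6 SS SS _ _ le_rfl hlog5 ?_
    intro ζ hζ
    rw [hK, if_neg (inv_ne_zero (hne0 ζ hζ)), inv_inv]
  have hlog7 := tpb3 SS _ _ hlog6 (tpb4 SS _ (-1) hlog3)
  refine ⟨φ, ⟨hφc, ?_, hφS, ?_⟩, hfφ, ?_⟩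
  · intro ζ hζ ζ' hζ' h
    apply h2.bijS.injOn hζ hζ'
    rw [← hfφ ζ hζ, ← hfφ ζ' hζ', h]
  · refine tpb6 SS SS _ _ le_rfl hlog7 ?_
    intro ζ hζ
    have h3 := hne0 _ (hφS ζ hζ)
    have h4 := hne0 _ hζ
    have h5 : F ζ - p ≠ 0 := sub_ne_zero.2 (hFne ζ (by rw [mem_sphere_zero_iff_norm.1 hζ]))
    rw [_root_.zpow_neg_one, _root_.zpow_neg_one]
    field_simp
  · intro γ ζ hζ
    have hsu := hSUB.1 (σ γ) (h2.fuch.su γ)
    have htu := hSUB.1 (τ γ) (h1.fuch.su γ)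
    have h3 : mob (σ γ) ζ ∈ SS := hsu.2.2.2.1.mapsTo hζ
    have h4 : mob (τ γ) (φ ζ) ∈ SS := htu.2.2.2.1.mapsTo (hφS ζ hζ)
    apply h1.bijS.injOn (hφS _ h3) h4
    rw [hfφ _ h3, (h1.eqv γ _ (hSD (hφS ζ hζ))).2, hfφ ζ hζ]
    exact ((h2.eqv γ ζ (by rw [mem_sphere_zero_iff_norm.1 hζ])).2 (hsu.2.1 ζ (hSD hζ))).2

end Pool.Agent.Helper72.QD
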